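import Pool.Agent.UMG.StmtsB

/-!
# Squad UMG, block B, row PIK: positions in a list of bundles
-/

set_option autoImplicit false

namespace Pool.Agent.UMG.B.H89

open Finset Pool.Agent.UMG Pool.Agent.UMG.B

theorem loc_inl (b : ℕ × ℕ × ℕ) (L : List (ℕ × ℕ × ℕ)) (t : Fin (bsz b)) :
    loc (b :: L) (Sum.inl t) = (0, (t : ℕ)) := rfl

theorem loc_inr (b : ℕ × ℕ × ℕ) (L : List (ℕ × ℕ × ℕ)) (h : HB L) :
    loc (b :: L) (Sum.inr h) = ((loc L h).1 + 1, (loc L h).2) := rfl

theorem loc_inj (L : List (ℕ × ℕ × ℕ)) : Function.Injective (loc L) := by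
  induction L with
  | nil => intro x; exact x.elim
  | cons b L ih =>
    intro x y hxy
    change Fin (bsz b) ⊕ HB L at x y
    rcases x with s | h <;> rcases y with t | h'
    · rw [loc_inl, loc_inl] at hxy
      have := congrArg Prod.snd hxy
      exact congrArg Sum.inl (Fin.ext this)
    · rw [loc_inl, loc_inr] at hxy
      have := congrArg Prod.fst hxy
      exact absurd this (by simp)
    · rw [loc_inl, loc_inr] at hxy
      have := congrArg Prod.fst hxy
      exact absurd this (by simp)
    · rw [loc_inr, loc_inr] at hxy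
      have h1 := congrArg Prod.fst hxy
      have h2 := congrArg Prod.snd hxy
      have h1' : (loc L h).1 = (loc L h').1 := Nat.succ_injective h1
      exact congrArg Sum.inr (ih (Prod.ext h1' h2))

theorem loc_range (L : List (ℕ × ℕ × ℕ)) : ∀ p r, (∃ h, loc L h = (p, r)) ↔
    ∃ hp : p < L.length, r < bsz (L.get ⟨p, hp⟩) := by
  induction L with
  | nil =>
    intro p r
    constructor
    · rintro ⟨h, _⟩
      exact h.elim
    · rintro ⟨hp, _⟩
      exact absurd hp (by simp)
  | cons b L ih =>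
    intro p r
    constructor
    · rintro ⟨h, hh⟩
      change Fin (bsz b) ⊕ HB L at h
      rcases h with t | h
      · rw [loc_inl] at hh
        have h1 : 0 = p := congrArg Prod.fst hh
        have h2 : (t : ℕ) = r := congrArg Prod.snd hh
        subst h1
        subst h2
        exact ⟨by simp, t.2⟩
      · rw [loc_inr] at hh
        have h1 : (loc L h).1 + 1 = p := congrArg Prod.fst hh
        have h2 : (loc L h).2 = r := congrArg Prod.snd hh
        subst h1
        obtain ⟨hp, hr⟩ := (ih (loc L h).1 r).1 ⟨h, Prod.ext rfl h2⟩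
        exact ⟨Nat.succ_lt_succ hp, hr⟩
    · rintro ⟨hp, hr⟩
      rcases p with _ | p
      · exact ⟨Sum.inl ⟨r, hr⟩, rfl⟩
      · obtain ⟨h, hh⟩ := (ih p r).2 ⟨Nat.lt_of_succ_lt_succ hp, hr⟩
        refine ⟨Sum.inr h, ?_⟩
        rw [loc_inr, hh]

/-- the exchange of the first two summands -/
def xch (A B C : Type) : A ⊕ (B ⊕ C) ≃ B ⊕ (A ⊕ C) where
  toFun x := match x with
    | Sum.inl a => Sum.inr (Sum.inl a)
    | Sum.inr (Sum.inl b) => Sum.inl b
    | Sum.inr (Sum.inr c) => Sum.inr (Sum.inr c)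
  invFun x := match x with
    | Sum.inl b => Sum.inr (Sum.inl b)
    | Sum.inr (Sum.inl a) => Sum.inl a
    | Sum.inr (Sum.inr c) => Sum.inr (Sum.inr c)
  left_inv x := by rcases x with a | b | c <;> rfl
  right_inv x := by rcases x with a | b | c <;> rfl

theorem pos2 (L : List (ℕ × ℕ × ℕ)) : ∀ p : Fin L.length,
    ∃ f : HB L ≃ Fin (bsz (L.get p)) ⊕ HB (L.eraseIdx p),
      (∀ h, Sum.elim (nu1 (L.get p)) (nuB (L.eraseIdx p)) (f h) = nuB L h) ∧
      (∀ h, f (gB L h) =
        Equiv.sumCongr (finRotate (bsz (L.get p))) (gB (L.eraseIdx p)) (f h)) ∧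
      ∀ t, loc L (f.symm (Sum.inl t)) = ((p : ℕ), (t : ℕ)) := by
  induction L with
  | nil => intro p; exact absurd p.2 (by simp)
  | cons b L ih =>
    rintro ⟨_ | i, hp⟩
    · exact ⟨Equiv.refl _, fun _ => rfl, fun _ => rfl, fun _ => rfl⟩
    · have hi : i < L.length := Nat.lt_of_succ_lt_succ hp
      obtain ⟨f, h1, h2, h3⟩ := ih ⟨i, hi⟩
      let F : Fin (bsz b) ⊕ HB L ≃ Fin (bsz (L.get ⟨i, hi⟩)) ⊕ (Fin (bsz b) ⊕ HB (L.eraseIdx i)) :=
        (Equiv.sumCongr (Equiv.refl _) f).trans (xch _ _ _)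
      refine ⟨F, ?_, ?_, ?_⟩
      · intro h
        change Fin (bsz b) ⊕ HB L at h
        rcases h with t | h
        · rfl
        · have hh := h1 h
          show Sum.elim (nu1 (L.get ⟨i, hi⟩)) (Sum.elim (nu1 b) (nuB (L.eraseIdx i)))
            (xch _ _ _ (Sum.inr (f h))) = nuB L h
          rw [← hh]
          rcases f h with s | h'
          · rfl
          · rfl
      · intro h
        change Fin (bsz b) ⊕ HB L at h
        rcases h with t | h
        · rfl
        · have hh := h2 h
          show xch _ _ _ (Sum.inr (f (gB L h))) =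
            Equiv.sumCongr (finRotate (bsz (L.get ⟨i, hi⟩)))
              (Equiv.sumCongr (finRotate (bsz b)) (gB (L.eraseIdx i))) (xch _ _ _ (Sum.inr (f h)))
          rw [hh]
          rcases f h with s | h'
          · rfl
          · rfl
      · intro t
        have hh := h3 t
        show loc (b :: L) (Sum.inr (f.symm (Sum.inl t))) = (i + 1, (t : ℕ))
        rw [loc_inr, hh]

theorem pik : PikStmt := ⟨fun L => ⟨loc_inj L, loc_range L⟩, fun L p => pos2 L p⟩

end Pool.Agent.UMG.B.H89
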