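import Pool.Agent.UMG.StmtsA

/-!
# Squad UMG, row BET
-/

set_option autoImplicit false

namespace Pool.Agent.UMG.A.H89

open Pool.Agent.UMG

theorem bet (hsqb : SqbStmt) : BetStmt := by
  intro M j c hj hc
  unfold Fh
  calc ∏ i ∈ Finset.range c, sq M j (i + 1) ≤ ∏ _i ∈ Finset.range c, (be M : ℝ) := by
        refine Finset.prod_le_prod ?_ ?_
        · intro i _
          have h1 := (hsqb M j (i + 1)).1
          have h2 := Real.sqrt_nonneg ((j : ℝ) * ((i + 1 : ℕ) : ℝ))
          split_ifs at h1 <;> linarith
        · intro i hi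
          rw [Finset.mem_range] at hi
          have hji : j * (i + 1) ≤ M := le_trans (Nat.mul_le_mul_left j hi) hc
          have hM1 : 1 ≤ M := le_trans (Nat.one_le_iff_ne_zero.2 (by positivity)) hji
          have h1 := (hsqb M j (i + 1)).2
          have h2 : Real.sqrt ((j : ℝ) * ((i + 1 : ℕ) : ℝ)) ≤ Real.sqrt (M : ℝ) := by
            apply Real.sqrt_le_sqrt
            exact_mod_cast hji
          have h3 : Real.sqrt (M : ℝ) < ((Nat.sqrt M : ℕ) : ℝ) + 1 := by
            rw [Real.sqrt_lt' (by positivity)]
            have := Nat.lt_succ_sqrt' M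
            exact_mod_cast this
          have h4 : (1 : ℝ) / ((M : ℝ) + 1) ≤ 1 / 2 := by
            apply one_div_le_one_div_of_le (by norm_num)
            have : (1 : ℝ) ≤ (M : ℝ) := by exact_mod_cast hM1
            linarith
          have h5 : (be M : ℝ) = ((Nat.sqrt M : ℕ) : ℝ) + 2 := by
            unfold be
            push_cast
            rfl
          have h6 : (if 2 ∣ j then (1 : ℝ) / 2 else 0) ≤ 1 / 2 := by
            split_ifs <;> norm_num
          rw [h5]
          linarith
    _ = (be M : ℝ) ^ c := by rw [Finset.prod_const, Finset.card_range]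

end Pool.Agent.UMG.A.H89
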