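import Pool.Agent.UMG.StmtsD

/-!
# Squad UMG, row FSZ
-/

set_option autoImplicit false

namespace Pool.Agent.UMG.H89

open Pool.Agent.UMG Finset

theorem fst_succ (h : ℕ → ℕ) (L R r : ℕ) : fst h L (R + 1) r =
    if fst h L R r ≠ 0 then fst h L R r else h (r / 2 ^ (L * R) % 2 ^ L) := rfl

theorem fst_zero (h : ℕ → ℕ) (L r : ℕ) : fst h L 0 r = 0 := rfl

theorem dig {L R t : ℕ} (ht : t < R) (r u : ℕ) :
    (r + 2 ^ (L * R) * u) / 2 ^ (L * t) % 2 ^ L = r / 2 ^ (L * t) % 2 ^ L := by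
  obtain ⟨m, rfl⟩ := Nat.exists_eq_add_of_lt ht
  have h1 : 2 ^ (L * (t + m + 1)) * u = 2 ^ (L * t) * (2 ^ L * (2 ^ (L * m) * u)) := by
    have : L * (t + m + 1) = L * t + L + L * m := by ring
    rw [this, pow_add, pow_add]
    ring
  rw [h1, Nat.add_mul_div_left _ _ (by positivity), Nat.add_mul_mod_self_left]

theorem fst_congr (h : ℕ → ℕ) (L R r u : ℕ) : ∀ S ≤ R,
    fst h L S (r + 2 ^ (L * R) * u) = fst h L S r := by
  intro S
  induction S with
  | zero => intro _; rfl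
  | succ S ih =>
    intro hS
    rw [fst_succ, fst_succ, ih (by omega), dig (by omega)]

theorem fst_succ_eq_zero (h : ℕ → ℕ) (L R r : ℕ) : fst h L (R + 1) r = 0 ↔
    fst h L R r = 0 ∧ h (r / 2 ^ (L * R) % 2 ^ L) = 0 := by
  rw [fst_succ]
  by_cases hr : fst h L R r = 0
  · rw [if_neg (by simpa using hr)]
    simp [hr]
  · rw [if_pos hr]
    simp [hr]

theorem fsz : FszStmt := by
  intro h L R
  induction R with
  | zero =>
    rw [pow_zero, Nat.mul_zero, pow_zero]
    rfl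
  | succ R ih =>
    rw [pow_succ, ← ih, ← card_product]
    have hP : 0 < 2 ^ (L * R) := by positivity
    have hPL : 2 ^ (L * (R + 1)) = 2 ^ (L * R) * 2 ^ L := by rw [Nat.mul_succ, pow_add]
    refine card_nbij' (fun r => (r % 2 ^ (L * R), r / 2 ^ (L * R)))
      (fun p => p.1 + 2 ^ (L * R) * p.2) ?_ ?_ ?_ ?_
    · intro r hr
      have hr' := mem_filter.1 hr
      have h1 : r < 2 ^ (L * (R + 1)) := mem_range.1 hr'.1
      have h2 : r / 2 ^ (L * R) < 2 ^ L := by
        rw [Nat.div_lt_iff_lt_mul hP, mul_comm, ← hPL]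
        exact h1
      have h3 := (fst_succ_eq_zero h L R r).1 hr'.2
      refine mem_product.2 ⟨mem_filter.2 ⟨mem_range.2 (Nat.mod_lt _ hP), ?_⟩,
        mem_filter.2 ⟨mem_range.2 h2, ?_⟩⟩
      · have h4 := fst_congr h L R (r % 2 ^ (L * R)) (r / 2 ^ (L * R)) R (le_refl R)
        rw [Nat.mod_add_div] at h4
        show fst h L R (r % 2 ^ (L * R)) = 0
        rw [← h4]
        exact h3.1
      · have h5 := h3.2
        rw [Nat.mod_eq_of_lt h2] at h5
        exact h5
    · intro p hp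
      have hp' := mem_product.1 hp
      have h1 := mem_filter.1 hp'.1
      have h2 := mem_filter.1 hp'.2
      have h3 : p.1 < 2 ^ (L * R) := mem_range.1 h1.1
      have h4 : p.2 < 2 ^ L := mem_range.1 h2.1
      refine mem_filter.2 ⟨mem_range.2 ?_, ?_⟩
      · rw [hPL]
        calc p.1 + 2 ^ (L * R) * p.2 < 2 ^ (L * R) + 2 ^ (L * R) * p.2 :=
              Nat.add_lt_add_right h3 _
          _ = 2 ^ (L * R) * (p.2 + 1) := by ring
          _ ≤ 2 ^ (L * R) * 2 ^ L := Nat.mul_le_mul_left _ h4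
      · rw [fst_succ_eq_zero, fst_congr h L R _ _ R (le_refl R)]
        refine ⟨h1.2, ?_⟩
        rw [Nat.add_mul_div_left _ _ hP, Nat.div_eq_of_lt h3, Nat.zero_add, Nat.mod_eq_of_lt h4]
        exact h2.2
    · intro r _
      exact Nat.mod_add_div _ _
    · intro p hp
      have hp' := mem_product.1 hp
      have h1 := mem_filter.1 hp'.1
      have h3 : p.1 < 2 ^ (L * R) := mem_range.1 h1.1
      have e1 : (p.1 + 2 ^ (L * R) * p.2) % 2 ^ (L * R) = p.1 := by
        rw [Nat.add_mul_mod_self_left, Nat.mod_eq_of_lt h3]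
      have e2 : (p.1 + 2 ^ (L * R) * p.2) / 2 ^ (L * R) = p.2 := by
        rw [Nat.add_mul_div_left _ _ hP, Nat.div_eq_of_lt h3, Nat.zero_add]
      exact Prod.ext e1 e2

end Pool.Agent.UMG.H89
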