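import Pool.Agent.UMG.StmtsA

/-!
# Squad UMG, row SQB
-/

set_option autoImplicit false

namespace Pool.Agent.UMG.A.H89

open Pool.Agent.UMG

theorem sqb : SqbStmt := by
  intro M j i
  have hQ : (0 : ℝ) < (M : ℝ) + 1 := by positivity
  have hX : Real.sqrt ((((M + 1) ^ 2 * j * i : ℕ)) : ℝ) = ((M : ℝ) + 1) * Real.sqrt (j * i) := by
    have h1 : ((((M + 1) ^ 2 * j * i : ℕ)) : ℝ) = ((M : ℝ) + 1) ^ 2 * ((j : ℝ) * i) := by
      push_cast
      ring
    rw [h1, Real.sqrt_mul (by positivity), Real.sqrt_sq hQ.le]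
  have hlo : ((Nat.sqrt ((M + 1) ^ 2 * j * i) : ℕ) : ℝ) ≤ ((M : ℝ) + 1) * Real.sqrt (j * i) := by
    rw [← hX]
    apply Real.le_sqrt_of_sq_le
    have := Nat.sqrt_le' ((M + 1) ^ 2 * j * i)
    exact_mod_cast this
  have hhi : ((M : ℝ) + 1) * Real.sqrt (j * i) <
      ((Nat.sqrt ((M + 1) ^ 2 * j * i) : ℕ) : ℝ) + 1 := by
    rw [← hX]
    rw [Real.sqrt_lt' (by positivity)]
    have := Nat.lt_succ_sqrt' ((M + 1) ^ 2 * j * i)
    exact_mod_cast this
  set N : ℝ := ((Nat.sqrt ((M + 1) ^ 2 * j * i) : ℕ) : ℝ) with hN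
  have hsq : sq M j i = (N + 1) / ((M : ℝ) + 1) + (if 2 ∣ j then 1 / 2 else 0) := by
    unfold sq Bn
    by_cases h : 2 ∣ j
    · simp only [if_pos h]
      push_cast
      rw [← hN]
      field_simp
    · simp only [if_neg h]
      push_cast
      rw [← hN]
      field_simp
      ring
  rw [hsq]
  constructor
  · have : Real.sqrt (j * i) < (N + 1) / ((M : ℝ) + 1) := by
      rw [lt_div_iff₀ hQ]
      linarith
    linarith
  · have : (N + 1) / ((M : ℝ) + 1) ≤ Real.sqrt (j * i) + 1 / ((M : ℝ) + 1) := by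
      rw [add_div]
      have h2 : N / ((M : ℝ) + 1) ≤ Real.sqrt (j * i) := by
        rw [div_le_iff₀ hQ]
        linarith
      linarith
    linarith

end Pool.Agent.UMG.A.H89
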